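import Mathlib
import Pool.Agent.Lib.MP_ada285_co.Defs
import Pool.Agent.Lib.MP_ada285_co.Main

/-!
# The class of triangle-free graphs without induced path on six vertices is on-line
# `χ_OL`-bounded (question of Broersma, Capponi and Paulusma, 2008)

The algorithm: a bipartite component of the graph seen so far is coloured by levels, a component
containing an odd cycle is coloured by the adjacencies of the new vertex to an induced five-cycle.
-/

set_option autoImplicit false

namespace Pool.Agent.Results.MP_ada285_co.OnlineChiBounded

open Pool.Agent.Lib.MP_ada285_co

/-- There are a single on-line colouring algorithm `A` and a function `h` such that, for every finite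
graph `G` without triangles and without an induced path on six vertices, `A` colours `G` properly in
every order of its vertices and uses at most `h (χ_OL(G))` colours. -/
theorem result :
    ∃ (A : OnlineAlgorithm) (h : ℕ → ℕ), ∀ (V : Type) [Fintype V] (G : SimpleGraph V),
      G.CliqueFree 3 → ¬ (SimpleGraph.pathGraph 6).IsIndContained G →
      WorksOn A G ∧ chiAlg A G ≤ h (chiOL G) :=
  ⟨theAlg, bound, fun _ _ _ hT hP => ⟨theAlg_works hT hP, chi_bound hT hP⟩⟩

end Pool.Agent.Results.MP_ada285_co.OnlineChiBounded
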